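import Pool.Agent.H217.CF.Spec

/-! # SURJ2 and WBOUND -/

set_option autoImplicit false

namespace Pool.Agent.H588.CF

open Finset
open Pool.Agent.H217.CF

open Classical in
theorem s_surj2 (h : S_surj) : S_surj2 := by
  intro k p hp A s z hz
  obtain ⟨p', hp'⟩ : ∃ p' : Option (Fin k) → ℝ, p' = fun o =>
    match o with
    | none => p none
    | some a => if a ∈ A then p (some a) else 0 := ⟨_, rfl⟩
  have hp'n : p' none = p none := by rw [hp']
  have hp's : ∀ a, p' (some a) = if a ∈ A then p (some a) else 0 := fun a => by rw [hp']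
  have hp'0 : ∀ o, 0 ≤ p' o := by
    intro o
    rcases o with _ | a
    · rw [hp'n]; exact hp _
    · rw [hp's]
      split_ifs
      · exact hp _
      · exact le_rfl
  have key := h (Option (Fin k)) p' hp'0 (A.map Function.Embedding.some) s z hz
  have hr : ∏ i, (if i ∈ A.map Function.Embedding.some then Real.exp (p' i * z) - 1
      else Real.exp (p' i * z)) =
      Real.exp (p none * z) * ∏ a ∈ A, (Real.exp (p (some a) * z) - 1) := by
    rw [Fintype.prod_option]
    have h1 : (none : Option (Fin k)) ∉ A.map Function.Embedding.some := by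
      rw [mem_map]
      rintro ⟨a, -, ha⟩
      exact Option.some_ne_none a ha
    have h2 : ∀ a, (some a ∈ A.map Function.Embedding.some) ↔ a ∈ A := by
      intro a
      rw [mem_map]
      constructor
      · rintro ⟨b, hb, hab⟩
        have : b = a := Option.some.inj hab
        rwa [this] at hb
      · intro ha
        exact ⟨a, ha, rfl⟩
    rw [if_neg h1, hp'n]
    congr 1
    have h3 : ∀ a : Fin k, (if some a ∈ A.map Function.Embedding.some then
        Real.exp (p' (some a) * z) - 1 else Real.exp (p' (some a) * z)) =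
        if a ∈ A then Real.exp (p (some a) * z) - 1 else 1 := by
      intro a
      by_cases ha : a ∈ A
      · rw [if_pos ((h2 a).2 ha), if_pos ha, hp's, if_pos ha]
      · rw [if_neg (fun h => ha ((h2 a).1 h)), if_neg ha, hp's, if_neg ha, zero_mul, Real.exp_zero]
    rw [prod_congr rfl fun a _ => h3 a, prod_ite_mem, univ_inter]
  rw [hr, ← mul_assoc] at key
  refine le_trans ?_ key
  refine sum_le_sum fun ψ _ => ?_
  by_cases hc : ∀ a : Fin k, a ∈ A ↔ ∃ x, ψ x = some a
  · rw [if_pos hc]
    have h4 : ∀ a ∈ A.map Function.Embedding.some, ∃ x, ψ x = a := by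
      intro a ha
      rw [mem_map] at ha
      obtain ⟨b, hb, rfl⟩ := ha
      exact (hc b).1 hb
    rw [if_pos h4]
    refine le_of_eq (prod_congr rfl fun x _ => ?_)
    rcases hx : ψ x with _ | a
    · rw [hp'n]
    · rw [hp's, if_pos ((hc a).2 ⟨x, hx⟩)]
  · rw [if_neg hc]
    split_ifs
    · exact prod_nonneg fun x _ => hp'0 _
    · exact le_rfl

/-- distributivity -/
theorem sum_prod_fn {α β : Type} [Fintype α] [DecidableEq α] [Fintype β] (f : α → β → ℝ) :
    ∑ τ : α → β, ∏ a, f a (τ a) = ∏ a, ∑ b, f a b := by
  rw [prod_univ_sum, Fintype.piFinset_univ]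

open Classical in
theorem s_wbound (h : S_surj2) : S_wbound := by
  intro k q s p hp z hz
  -- the colours used
  have h1 : W k q s p ≤ ∑ ψ : X q s → Option (Fin k), ∑ τ : Fin k → Option (Fin q),
      ∏ j, (if (∀ a : Fin k, a ∈ univ.filter (fun a => τ a = some j) ↔ ∃ i, ψ (j, i) = some a) then
        ∏ i, p (ψ (j, i)) else 0) := by
    unfold W
    refine sum_le_sum fun ψ _ => ?_
    have hnn : ∀ τ : Fin k → Option (Fin q), 0 ≤ ∏ j, (if (∀ a : Fin k,
        a ∈ univ.filter (fun a => τ a = some j) ↔ ∃ i, ψ (j, i) = some a) then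
        ∏ i, p (ψ (j, i)) else 0) := by
      intro τ
      refine prod_nonneg fun j _ => ?_
      split_ifs
      · exact prod_nonneg fun i _ => hp _
      · exact le_rfl
    by_cases hψ : Proper ψ
    · rw [if_pos hψ]
      obtain ⟨τ, hτ⟩ : ∃ τ : Fin k → Option (Fin q), ∀ a j, τ a = some j ↔ ∃ i, ψ (j, i) = some a := by
        refine ⟨fun a => if hx : ∃ x : X q s, ψ x = some a then some hx.choose.1 else none, ?_⟩
        intro a j
        beta_reduce
        by_cases hx : ∃ x : X q s, ψ x = some a
        · rw [dif_pos hx]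
          have hch := hx.choose_spec
          constructor
          · intro h2
            have h3 : hx.choose.1 = j := Option.some.inj h2
            refine ⟨hx.choose.2, ?_⟩
            rw [← h3]
            exact hch
          · rintro ⟨i, hi⟩
            congr 1
            by_contra hne
            exact hψ hx.choose (j, i) hne a hch hi
        · rw [dif_neg hx]
          constructor
          · intro h2
            exact absurd h2.symm (Option.some_ne_none j)
          · rintro ⟨i, hi⟩
            exact absurd ⟨_, hi⟩ hx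
      refine le_trans (le_of_eq ?_) (single_le_sum (fun τ _ => hnn τ) (mem_univ τ))
      rw [Fintype.prod_prod_type]
      refine prod_congr rfl fun j _ => ?_
      rw [if_pos]
      intro a
      rw [mem_filter, hτ a j]
      exact ⟨fun h => h.2, fun h => ⟨mem_univ _, h⟩⟩
    · rw [if_neg hψ]
      exact sum_nonneg fun τ _ => hnn τ
  refine h1.trans ?_
  rw [sum_comm]
  obtain ⟨w, hw⟩ : ∃ w : Fin k → ℝ, w = fun a => Real.exp (p (some a) * z) - 1 := ⟨_, rfl⟩
  obtain ⟨c, hc⟩ : ∃ c : ℝ, c = ((s.factorial : ℝ) / z ^ s) := ⟨_, rfl⟩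
  -- for a fixed assignment
  have h2 : ∀ τ : Fin k → Option (Fin q), ∑ ψ : X q s → Option (Fin k),
      ∏ j, (if (∀ a : Fin k, a ∈ univ.filter (fun a => τ a = some j) ↔ ∃ i, ψ (j, i) = some a) then
        ∏ i, p (ψ (j, i)) else 0) ≤
      c ^ q * Real.exp (q * p none * z) * ∏ a, (match τ a with | none => 1 | some _ => w a) := by
    intro τ
    have h3 : ∑ ψ : X q s → Option (Fin k),
        ∏ j, (if (∀ a : Fin k, a ∈ univ.filter (fun a => τ a = some j) ↔ ∃ i, ψ (j, i) = some a) then
          ∏ i, p (ψ (j, i)) else 0) =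
        ∑ ψ : Fin q → Fin s → Option (Fin k),
        ∏ j, (if (∀ a : Fin k, a ∈ univ.filter (fun a => τ a = some j) ↔ ∃ i, ψ j i = some a) then
          ∏ i, p (ψ j i) else 0) :=
      Fintype.sum_equiv (Equiv.curry (Fin q) (Fin s) (Option (Fin k))) _ _ fun ψ => rfl
    rw [h3, sum_prod_fn (fun (j : Fin q) (ψ : Fin s → Option (Fin k)) =>
      if (∀ a : Fin k, a ∈ univ.filter (fun a => τ a = some j) ↔ ∃ i, ψ i = some a) then
          ∏ i, p (ψ i) else 0)]
    have h4 : ∀ j : Fin q, (∑ ψ : Fin s → Option (Fin k),
        if (∀ a : Fin k, a ∈ univ.filter (fun a => τ a = some j) ↔ ∃ i, ψ i = some a) then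
          ∏ i, p (ψ i) else 0) ≤ c * Real.exp (p none * z) *
            ∏ a, (if τ a = some j then w a else 1) := by
      intro j
      have h5 := h k p hp (univ.filter (fun a => τ a = some j)) s z hz
      rw [prod_filter] at h5
      rw [hc, hw]
      exact h5
    refine le_trans (prod_le_prod (fun j _ => ?_) fun j _ => h4 j) ?_
    · refine sum_nonneg fun ψ _ => ?_
      split_ifs
      · exact prod_nonneg fun i _ => hp _
      · exact le_rfl
    rw [prod_mul_distrib, prod_const, card_univ, Fintype.card_fin, mul_pow, ← Real.exp_nat_mul,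
      prod_comm]
    refine le_of_eq ?_
    rw [← mul_assoc (q : ℝ)]
    congr 1
    refine prod_congr rfl fun a _ => ?_
    rcases hτ : τ a with _ | j0
    · refine prod_eq_one fun j _ => ?_
      rw [if_neg]
      exact (Option.some_ne_none j).symm
    · have : ∀ j : Fin q, (if some j0 = some j then w a else 1) = if j = j0 then w a else 1 := by
        intro j
        by_cases hj : j = j0
        · rw [hj, if_pos rfl, if_pos rfl]
        · rw [if_neg hj, if_neg]
          intro hh
          exact hj (Option.some.inj hh).symm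
      rw [prod_congr rfl fun j _ => this j, prod_ite_eq', if_pos (mem_univ _)]
  refine (sum_le_sum fun τ _ => h2 τ).trans (le_of_eq ?_)
  rw [← mul_sum, sum_prod_fn (fun (a : Fin k) (o : Option (Fin q)) =>
    (match o with | none => 1 | some _ => w a : ℝ)), hc]
  congr 1
  refine prod_congr rfl fun a _ => ?_
  rw [Fintype.sum_option]
  simp only [sum_const, card_univ, Fintype.card_fin, nsmul_eq_mul, hw]

end Pool.Agent.H588.CF
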